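import Pool.Agent.CW4.Net

/-!
# MP_ba7b31_co: bodies of constant width in four dimensional space have `I_0 ≤ 8` and `I_1 ≤ 4`

The light sources of the problem file, at finite distance: the eight points are the vertices
`c + T • e i`, `c - T • e i` of a regular cross polytope around any point `c` of the body.
-/

set_option autoImplicit false

namespace Pool.Agent.Results.MP_ba7b31_co.ConstantWidthFour

variable {d : ℕ}

/-- The width of `K` (maximum minus minimum of `⟨u, x⟩` over `K`) is the same for all unit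
vectors `u`. -/
def ConstantWidth (K : Set (EuclideanSpace ℝ (Fin d))) : Prop :=
  ∃ w : ℝ, ∀ u : EuclideanSpace ℝ (Fin d), ‖u‖ = 1 →
    sSup ((fun x => inner ℝ u x) '' K) - sInf ((fun x => inner ℝ u x) '' K) = w

/-- The exterior point `p` of `K` illuminates `q`: the half line from `p` through `q` meets the
interior of `K` beyond `q`. -/
def Illuminates (K : Set (EuclideanSpace ℝ (Fin d))) (p q : EuclideanSpace ℝ (Fin d)) : Prop :=
  p ∉ K ∧ ∃ s : ℝ, 0 < s ∧ q + s • (q - p) ∈ interior K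

/-- `I_l(K) ≤ n`: there are `n` affine subspaces of dimension `l`, disjoint from `K`, such that
every boundary point of `K` is illuminated by a point of one of them. -/
def IlluminationNumberLe (l n : ℕ) (K : Set (EuclideanSpace ℝ (Fin d))) : Prop :=
  ∃ L : Fin n → AffineSubspace ℝ (EuclideanSpace ℝ (Fin d)),
    (∀ i, (L i : Set (EuclideanSpace ℝ (Fin d))).Nonempty ∧
      Module.finrank ℝ (L i).direction = l ∧
      Disjoint (L i : Set (EuclideanSpace ℝ (Fin d))) K) ∧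
    ∀ q ∈ frontier K, ∃ i, ∃ p ∈ L i, Illuminates K p q

/-- the width in the form of the frozen statement -/
theorem isLUB_of_width {K : Set (EuclideanSpace ℝ (Fin 4))} (hc : IsCompact K)
    (hne : K.Nonempty) (hw : ConstantWidth K) :
    ∃ w : ℝ, ∀ u : EuclideanSpace ℝ (Fin 4), ‖u‖ = 1 →
      IsLUB {s : ℝ | ∃ x ∈ K, ∃ y ∈ K, s = inner ℝ u (x - y)} w := by
  obtain ⟨w, hw⟩ := hw
  refine ⟨w, fun u hu => ?_⟩
  have hcont : Continuous fun x : EuclideanSpace ℝ (Fin 4) => (inner ℝ u x : ℝ) := by fun_prop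
  have hcS := hc.image hcont
  have hneS : ((fun x => (inner ℝ u x : ℝ)) '' K).Nonempty := hne.image _
  obtain ⟨a, ha, ha'⟩ := hcS.sSup_mem hneS
  obtain ⟨b, hb, hb'⟩ := hcS.sInf_mem hneS
  have hw' := hw u hu
  apply IsGreatest.isLUB
  refine ⟨⟨a, ha, b, hb, ?_⟩, ?_⟩
  · rw [inner_sub_right, ← hw', ← ha', ← hb']
  · rintro _ ⟨x, hx, y, hy, rfl⟩
    rw [inner_sub_right, ← hw']
    have h1 := le_csSup hcS.bddAbove (Set.mem_image_of_mem (fun x => (inner ℝ u x : ℝ)) hx)
    have h2 := csInf_le hcS.bddBelow (Set.mem_image_of_mem (fun x => (inner ℝ u x : ℝ)) hy)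
    linarith

/-- Every convex body of constant width in `E^4` has `I_0 ≤ 8` and `I_1 ≤ 4`; the eight sources
may be the vertices of any large enough regular cross polytope with axes `e i` and centre in
`K`. -/
theorem result (K : Set (EuclideanSpace ℝ (Fin 4))) (hc : IsCompact K) (hconv : Convex ℝ K)
    (hint : (interior K).Nonempty) (hw : ConstantWidth K) :
    IlluminationNumberLe 0 8 K ∧ IlluminationNumberLe 1 4 K ∧
    ∃ e : Fin 4 → EuclideanSpace ℝ (Fin 4), Orthonormal ℝ e ∧ ∃ T₀ : ℝ, ∀ T ≥ T₀, ∀ c ∈ K,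
      ∀ q ∈ frontier K, ∃ i, Illuminates K (c + T • e i) q ∨ Illuminates K (c - T • e i) q := by
  obtain ⟨e, he, hf⟩ := CW4.Net.frame K hc hconv hint
    (isLUB_of_width hc (hint.mono interior_subset) hw)
  have hn : ∀ (i : Fin 4) (σ : ℝ), σ = 1 ∨ σ = -1 → ‖σ • e i‖ = 1 := by
    intro i σ hσ
    rw [norm_smul, he.1 i, mul_one]
    rcases hσ with rfl | rfl <;> simp
  obtain ⟨M, hM0, hM, T₀, hT₀, H⟩ := CW4.Net.sources hc
    (P := fun v => ∃ (i : Fin 4) (σ : ℝ), (σ = 1 ∨ σ = -1) ∧ v = σ • e i)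
    (by rintro _ ⟨i, σ, hσ, rfl⟩; exact hn i σ hσ)
    (by
      intro x hx
      obtain ⟨i, σ, hσ, h⟩ := hf x hx
      exact ⟨σ • e i, ⟨i, σ, hσ, rfl⟩, h⟩)
  obtain ⟨c, hcI⟩ := hint
  have hcK : c ∈ K := interior_subset hcI
  have hT0 : 0 < T₀ := by linarith
  have hout : ∀ (i : Fin 4) (σ : ℝ), σ = 1 ∨ σ = -1 → c - T₀ • (σ • e i) ∉ K := by
    intro i σ hσ hmem
    have := hM c hcK _ hmem
    rw [sub_sub_cancel, norm_smul, hn i σ hσ, mul_one, Real.norm_eq_abs, abs_of_pos hT0] at this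
    linarith
  refine ⟨?_, ?_, e, he, T₀, ?_⟩
  · -- eight points
    let f : Fin 4 × Bool ≃ Fin 8 := Fintype.equivFinOfCardEq (by simp)
    let p : Fin 4 × Bool → EuclideanSpace ℝ (Fin 4) :=
      fun k => c - T₀ • ((if k.2 then (1 : ℝ) else -1) • e k.1)
    have hσ : ∀ b : Bool, (if b then (1 : ℝ) else -1) = 1 ∨ (if b then (1 : ℝ) else -1) = -1 := by
      intro b; cases b <;> simp
    refine ⟨fun k => AffineSubspace.mk' (p (f.symm k)) ⊥, fun k => ⟨⟨_,
      AffineSubspace.self_mem_mk' _ _⟩, ?_, ?_⟩, ?_⟩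
    · rw [AffineSubspace.direction_mk', finrank_bot]
    · rw [Set.disjoint_left]
      intro z hz
      have hz' : z -ᵥ p (f.symm k) ∈ (⊥ : Submodule ℝ (EuclideanSpace ℝ (Fin 4))) :=
        AffineSubspace.mem_mk'.1 hz
      rw [Submodule.mem_bot, vsub_eq_zero_iff_eq] at hz'
      rw [hz']
      exact hout _ _ (hσ _)
    · intro q hq
      obtain ⟨_, ⟨i, σ, hσ', rfl⟩, h1, h2⟩ := H T₀ le_rfl c hcK q hq
      have key : ∀ b : Bool, (if b then (1 : ℝ) else -1) = σ →
          ∃ k, ∃ x ∈ AffineSubspace.mk' (p (f.symm k)) (⊥ : Submodule ℝ _),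
            Illuminates K x q := by
        intro b hb
        refine ⟨f (i, b), _, AffineSubspace.self_mem_mk' _ _, ?_⟩
        have : p (f.symm (f (i, b))) = c - T₀ • (σ • e i) := by
          rw [Equiv.symm_apply_apply]
          simp only [p, hb]
        rw [this]
        exact ⟨h1, h2⟩
      rcases hσ' with rfl | rfl
      · exact key true (by simp)
      · exact key false (by simp)
  · -- four lines
    have horth := orthonormal_iff_ite.1 he
    have hab : ∀ (a b : Fin 4) (σ : ℝ), a ≠ b → inner ℝ (σ • e a) (σ • e b) = (0 : ℝ) := by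
      intro a b σ hne
      rw [inner_smul_left, inner_smul_right, horth, if_neg hne]
      simp
    have hne : ∀ (a b : Fin 4) (σ : ℝ), σ = 1 ∨ σ = -1 → a ≠ b →
        c - T₀ • (σ • e a) ≠ c - T₀ • (σ • e b) := by
      intro a b σ hσ hne heq
      have h1 : T₀ • (σ • e a) = T₀ • (σ • e b) := sub_right_injective heq
      have h2 : σ • e a = σ • e b := smul_right_injective _ hT0.ne' h1
      have h3 := hab a b σ hne
      rw [← h2, real_inner_self_eq_norm_sq, hn a σ hσ] at h3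
      norm_num at h3
    let ℓ : ℝ → Fin 4 → Fin 4 → AffineSubspace ℝ (EuclideanSpace ℝ (Fin 4)) :=
      fun σ a b => affineSpan ℝ {c - T₀ • (σ • e a), c - T₀ • (σ • e b)}
    have hℓ : ∀ (a b : Fin 4) (σ : ℝ), σ = 1 ∨ σ = -1 → a ≠ b →
        ((ℓ σ a b : Set (EuclideanSpace ℝ (Fin 4))).Nonempty ∧
          Module.finrank ℝ (ℓ σ a b).direction = 1 ∧
          Disjoint (ℓ σ a b : Set (EuclideanSpace ℝ (Fin 4))) K) := by
      intro a b σ hσ hne'
      exact ⟨⟨_, left_mem_affineSpan_pair ℝ _ _⟩, CW4.Net.line_finrank (hne a b σ hσ hne'),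
        CW4.Net.line_disjoint hM hM0 hT₀ hcK (hn a σ hσ) (hn b σ hσ) (hab a b σ hne')⟩
    refine ⟨![ℓ 1 0 1, ℓ (-1) 0 1, ℓ 1 2 3, ℓ (-1) 2 3], ?_, ?_⟩
    · intro i
      fin_cases i
      · exact hℓ 0 1 1 (Or.inl rfl) (by decide)
      · exact hℓ 0 1 (-1) (Or.inr rfl) (by decide)
      · exact hℓ 2 3 1 (Or.inl rfl) (by decide)
      · exact hℓ 2 3 (-1) (Or.inr rfl) (by decide)
    · intro q hq
      obtain ⟨_, ⟨i, σ, hσ', rfl⟩, h1, h2⟩ := H T₀ le_rfl c hcK q hq
      have hl : ∀ a b : Fin 4, c - T₀ • (σ • e a) ∈ ℓ σ a b :=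
        fun a b => left_mem_affineSpan_pair ℝ _ _
      have hr : ∀ a b : Fin 4, c - T₀ • (σ • e b) ∈ ℓ σ a b :=
        fun a b => right_mem_affineSpan_pair ℝ _ _
      rcases hσ' with rfl | rfl
      · fin_cases i
        · exact ⟨0, _, hl 0 1, h1, h2⟩
        · exact ⟨0, _, hr 0 1, h1, h2⟩
        · exact ⟨2, _, hl 2 3, h1, h2⟩
        · exact ⟨2, _, hr 2 3, h1, h2⟩
      · fin_cases i
        · exact ⟨1, _, hl 0 1, h1, h2⟩
        · exact ⟨1, _, hr 0 1, h1, h2⟩
        · exact ⟨3, _, hl 2 3, h1, h2⟩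
        · exact ⟨3, _, hr 2 3, h1, h2⟩
  · -- cross polytopes
    intro T hT c' hc' q hq
    obtain ⟨_, ⟨i, σ, hσ', rfl⟩, h1, h2⟩ := H T hT c' hc' q hq
    rcases hσ' with rfl | rfl
    · refine ⟨i, Or.inr ?_⟩
      rw [one_smul] at h1 h2
      exact ⟨h1, h2⟩
    · refine ⟨i, Or.inl ?_⟩
      have : c' - T • ((-1 : ℝ) • e i) = c' + T • e i := by
        rw [neg_smul, one_smul, smul_neg, sub_neg_eq_add]
      rw [this] at h1 h2
      exact ⟨h1, h2⟩

end Pool.Agent.Results.MP_ba7b31_co.ConstantWidthFour
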